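import Pool.Agent.Q84.QQ.Main

/-!
# Two quadrics in `ℙ⁵` over a field of cohomological dimension one: no rational point

The negated form of Q1: every field `k₀` of characteristic two has an extension field `k` with
`cd(k) = 1` and a smooth complete intersection of two quadrics `X ⊂ ℙ⁵` over `k` with `X(k) = ∅`.

The field `k` is a maximal separable extension prime to `2` of `κ(c)`, where
`κ = k₀(a₀, a₁, a₂, …)`.  The quadrics are
`f = f₁ + f₂ + f₃` and `g = f₂ + c f₃ + x₀² + x₂² + x₄²`, where
`f₁ = a₀ x₀² + a₁ x₁² + c x₀ x₁`, `f₂ = a₂ x₂² + a₃ x₃² + c x₂ x₃`,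
`f₃ = a₄ x₄² + a₅ x₅² + c x₄ x₅`.
-/

set_option autoImplicit false

open MvPolynomial

namespace Pool.Agent.Results.MP_0f87c6_ag.NoRationalPoint

/-- Every field `k₀` of characteristic two has an extension field `k` of cohomological dimension
exactly one over which there are two quadratic forms `f`, `g` in six variables such that
`f = g = 0` is a smooth complete intersection in `ℙ⁵` and has no rational point. -/
theorem result (k₀ : Type) [Field k₀] [CharP k₀ 2] :
    ∃ (k : Type) (_ : Field k) (_ : Algebra k₀ k),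
      Pool.Agent.Q84.QQ.CdEqOne Gal(SeparableClosure k/k) ∧
      ∃ f g : MvPolynomial (Fin (5 + 1)) k, f.IsHomogeneous 2 ∧ g.IsHomogeneous 2 ∧
        Pool.Agent.Q84.QQ.IsSmoothIntersection f g ∧
        ¬ ∃ x : Fin (5 + 1) → k, x ≠ 0 ∧ eval x f = 0 ∧ eval x g = 0 :=
  Pool.Agent.Q84.QQ.main k₀

end Pool.Agent.Results.MP_0f87c6_ag.NoRationalPoint
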